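import Mathlib
import Pool.Agent.Y388.CF.Transversal

set_option autoImplicit false

/-!
# Compatibly three-coloured pieces
-/

namespace Pool.Agent.X73.CF

open Pool.Agent.TH855 Pool.Agent.Y388.CF Classical Filter
open scoped ENNReal

/-- tree-like gluing of compatibly three-coloured pieces -/
theorem compat {W : Type} [Fintype W] (F : SimpleGraph W) (κ : W → Fin 3) (k : ℕ) (hk : 1 ≤ k)
    (hκ : ∀ a b, F.Adj a b → κ a ≠ κ b)
    (m : ℕ) (B : ℕ → Set W) (hcov : ∀ w, ∃ i < m, w ∈ B i)
    (hedge : ∀ a b, F.Adj a b → ∃ i < m, a ∈ B i ∧ b ∈ B i)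
    (hone : ∀ i < m, ∀ a ∈ B i, ∀ b ∈ B i, κ a = 0 → κ b = 0 → a = b)
    (hglue : ∀ i < m, (∀ l < i, Disjoint (B i) (B l)) ∨ ∃ j < i, (∀ l < i, B i ∩ B l ⊆ B j) ∧
      (B i ⊆ B j ∨ (B i ∩ B j).ncard ≤ k ∧
        ((∃ a, B i ∩ B j = {a}) ∨ ∃ a ∈ B i ∩ B j, ∃ b ∈ B i ∩ B j, κ a ≠ κ b))) :
    c F ≤ k := by
  rcases isEmpty_or_nonempty W with hW | hW
  · refine (c_empty F).trans ?_
    exact_mod_cast hk
  set π : W → Option (Bool × W) := fun w => if κ w = 0 then none else some (decide (κ w = 1), w)
    with hπdef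
  have hπ0 : ∀ w, κ w = 0 → π w = none := fun w hw => by simp only [hπdef, if_pos hw]
  have hπ1 : ∀ w, κ w ≠ 0 → π w = some (decide (κ w = 1), w) := fun w hw => by
    simp only [hπdef, if_neg hw]
  have hadj : ∀ a b, κ a ≠ κ b → (apexGraph W).Adj (π a) (π b) := by
    intro a b hab
    by_cases ha : κ a = 0
    · have hb : κ b ≠ 0 := fun h => hab (ha.trans h.symm)
      rw [hπ0 a ha, hπ1 b hb]
      exact apexGraph_none W _
    · by_cases hb : κ b = 0
      · rw [hπ0 b hb, hπ1 a ha]
        exact (apexGraph_none W _).symm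
      · rw [hπ1 a ha, hπ1 b hb, apexGraph_some]
        intro h
        simp only [decide_eq_decide] at h
        have key : ∀ x y : Fin 3, x ≠ y → x ≠ 0 → y ≠ 0 → ¬ (x = 1 ↔ y = 1) := by decide
        exact key _ _ hab ha hb h
  have htg : TreeGlued F (apexGraph W) k := by
    refine ⟨π, m, B, fun a b hab => hadj a b (hκ a b hab), hcov, hedge, ?_, ?_⟩
    · intro i hi a ha b hb hab
      by_cases ha0 : κ a = 0
      · by_cases hb0 : κ b = 0
        · exact hone i hi a ha b hb ha0 hb0
        · rw [hπ0 a ha0, hπ1 b hb0] at hab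
          exact absurd hab (by simp)
      · by_cases hb0 : κ b = 0
        · rw [hπ0 b hb0, hπ1 a ha0] at hab
          exact absurd hab (by simp)
        · rw [hπ1 a ha0, hπ1 b hb0] at hab
          exact (Prod.ext_iff.1 (Option.some.inj hab)).2
    · intro i hi
      rcases hglue i hi with h | ⟨j, hj, h1, h2⟩
      · exact Or.inl h
      · refine Or.inr ⟨j, hj, h1, ?_⟩
        rcases h2 with h2 | ⟨h2, h3⟩
        · exact Or.inl h2
        · refine Or.inr ⟨h2, ?_⟩
          rcases h3 with ⟨a, ha⟩ | ⟨a, ha, b, hb, hab⟩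
          · rw [ha, Set.image_singleton]
            rw [SimpleGraph.connected_iff_exists_forall_reachable]
            refine ⟨⟨π a, rfl⟩, ?_⟩
            rintro ⟨z, hz⟩
            have hz' : z = π a := hz
            subst hz'
            rfl
          · refine conn_of_pair _ _ (π a) (π b) ⟨a, ha, rfl⟩ ⟨b, hb, rfl⟩ (hadj a b hab) ?_
            rintro _ ⟨d, hd, rfl⟩
            by_cases hda : κ a = κ d
            · right; right; right
              exact hadj b d (fun h => hab (hda.trans h.symm))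
            · right; right; left
              exact hadj a d hda
  have h1 := treeGlued_bound F (apexGraph W) k (apexGraph_connected W) (card_apexGraph W) hk htg
  refine h1.trans ?_
  calc (k : ℝ≥0∞) * c (apexGraph W) ≤ k * 1 := mul_le_mul_right (c_apexGraph W) _
    _ = k := mul_one _

/-- a 2-colouring on a set as a Boolean function -/
theorem two_col {W : Type} {F : SimpleGraph W} {B : Set W} (h : (F.induce B).Colorable 2) :
    ∃ f : W → Bool, ∀ a ∈ B, ∀ b ∈ B, F.Adj a b → f a ≠ f b := by
  obtain ⟨C⟩ := h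
  refine ⟨fun w => if h : w ∈ B then decide (C ⟨w, h⟩ = 0) else false, ?_⟩
  intro a ha b hb hab h
  simp only [dif_pos ha, dif_pos hb, decide_eq_decide] at h
  have h2 : (F.induce B).Adj ⟨a, ha⟩ ⟨b, hb⟩ := hab
  have h3 := C.valid h2
  have key : ∀ a b : Fin 2, a ≠ b → ¬ (a = 0 ↔ b = 0) := by decide
  exact key _ _ h3 h

theorem col_two {W : Type} {F : SimpleGraph W} {B : Set W} (f : W → Bool)
    (hf : ∀ a ∈ B, ∀ b ∈ B, F.Adj a b → f a ≠ f b) : (F.induce B).Colorable 2 := by
  refine ⟨SimpleGraph.Coloring.mk (fun w => if f w.1 then (0 : Fin 2) else 1) ?_⟩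
  intro a b hab h
  have h1 : F.Adj a.1 b.1 := hab
  have h2 := hf a.1 a.2 b.1 b.2 h1
  cases ha : f a.1 <;> cases hb : f b.1 <;> simp_all

/-- `F[B]` is bipartite, or becomes bipartite when any one vertex is deleted -/
def Crit {W : Type} (F : SimpleGraph W) (B : Set W) : Prop :=
  (F.induce B).Colorable 2 ∨ ∀ v ∈ B, (F.induce (B \ {v})).Colorable 2

theorem ext0 {W : Type} {F : SimpleGraph W} {E : Set W} {f : W → Bool}
    (hf : ∀ a ∈ E, ∀ b ∈ E, F.Adj a b → f a ≠ f b) (κ : W → Fin 3) (C : Set W) (hCE : C ⊆ E)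
    (hcl : ∀ a ∈ C, ∀ b ∈ C, a ≠ b → F.Adj a b) (h0 : ∀ a ∈ C, κ a ≠ 0)
    (hκ : ∀ a ∈ C, ∀ b ∈ C, F.Adj a b → κ a ≠ κ b) :
    ∃ g : W → Fin 3, (∀ w, g w ≠ 0) ∧ (∀ a ∈ E, ∀ b ∈ E, F.Adj a b → g a ≠ g b) ∧
      ∀ w ∈ C, g w = κ w := by
  by_cases hC : C.Nonempty
  · obtain ⟨u, hu⟩ := hC
    have hu0 := h0 u hu
    set o : Fin 3 := if κ u = 1 then 2 else 1 with ho
    have ho0 : o ≠ 0 := by
      rw [ho]; split_ifs <;> decide
    have hou : o ≠ κ u := by
      rw [ho]
      have key : ∀ x : Fin 3, x ≠ 0 → (if x = 1 then (2 : Fin 3) else 1) ≠ x := by decide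
      exact key _ hu0
    have hoo : ∀ x : Fin 3, x ≠ 0 → x ≠ κ u → x = o := by
      rw [ho]
      have key : ∀ y x : Fin 3, y ≠ 0 → x ≠ 0 → x ≠ y → x = (if y = 1 then (2 : Fin 3) else 1) := by
        decide
      intro x h1 h2
      exact key _ _ hu0 h1 h2
    refine ⟨fun w => if f w = f u then κ u else o, ?_, ?_, ?_⟩
    · intro w
      change (if f w = f u then κ u else o) ≠ 0
      split_ifs
      · exact hu0
      · exact ho0
    · intro a ha b hb hab
      have h1 := hf a ha b hb hab
      change (if f a = f u then κ u else o) ≠ (if f b = f u then κ u else o)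
      by_cases h2 : f a = f u
      · have h3 : f b ≠ f u := fun h => h1 (h2.trans h.symm)
        rw [if_pos h2, if_neg h3]
        exact hou.symm
      · have h3 : f b = f u := by
          have key : ∀ x y z : Bool, x ≠ y → x ≠ z → y = z := by decide
          exact key _ _ _ h1 h2
        rw [if_neg h2, if_pos h3]
        exact hou
    · intro w hw
      change (if f w = f u then κ u else o) = κ w
      by_cases hwu : w = u
      · rw [hwu, if_pos rfl]
      · have h1 := hcl w hw u hu hwu
        rw [if_neg (hf w (hCE hw) u (hCE hu) h1)]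
        exact (hoo _ (h0 w hw) (hκ w hw u hu h1)).symm
  · refine ⟨fun w => if f w then 1 else 2, ?_, ?_, ?_⟩
    · intro w
      change (if f w then (1 : Fin 3) else 2) ≠ 0
      split_ifs <;> decide
    · intro a ha b hb hab
      have h1 := hf a ha b hb hab
      have key : ∀ x y : Bool, x ≠ y →
          (if x = true then (1 : Fin 3) else 2) ≠ (if y = true then (1 : Fin 3) else 2) := by decide
      exact key _ _ h1
    · intro w hw
      exact absurd ⟨w, hw⟩ hC

theorem ext_col {W : Type} {F : SimpleGraph W} {D S : Set W} {κ : W → Fin 3}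
    (hκ : ∀ a ∈ S, ∀ b ∈ S, F.Adj a b → κ a ≠ κ b)
    (hcl : ∀ a ∈ S ∩ D, ∀ b ∈ S ∩ D, a ≠ b → F.Adj a b) (hcrit : Crit F D) :
    ∃ g : W → Fin 3, (∀ a ∈ D, ∀ b ∈ D, F.Adj a b → g a ≠ g b) ∧ (∀ a ∈ S ∩ D, g a = κ a) ∧
      (∀ a ∈ D, ∀ b ∈ D, g a = 0 → g b = 0 → a = b) := by
  -- colourings with a prescribed exceptional vertex
  have apex : ∀ r ∈ D, (∀ a ∈ S ∩ D, a ≠ r → κ a ≠ 0) → (r ∈ S → κ r = 0) →
      (F.induce (D \ {r})).Colorable 2 →
      ∃ g : W → Fin 3, (∀ a ∈ D, ∀ b ∈ D, F.Adj a b → g a ≠ g b) ∧ (∀ a ∈ S ∩ D, g a = κ a) ∧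
      (∀ a ∈ D, ∀ b ∈ D, g a = 0 → g b = 0 → a = b) := by
    intro r hr h1 h2 hcol
    obtain ⟨f, hf⟩ := two_col hcol
    obtain ⟨g, hg0, hg1, hg2⟩ := ext0 hf κ ((S ∩ D) \ {r})
      (fun w hw => ⟨hw.1.2, hw.2⟩) (fun a ha b hb hab => hcl a ha.1 b hb.1 hab)
      (fun a ha => h1 a ha.1 ha.2) (fun a ha b hb hab => hκ a ha.1.1 b hb.1.1 hab)
    refine ⟨fun w => if w = r then 0 else g w, ?_, ?_, ?_⟩
    · intro a ha b hb hab
      change (if a = r then 0 else g a) ≠ (if b = r then 0 else g b)
      by_cases har : a = r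
      · have hbr : b ≠ r := fun h => hab.ne (har.trans h.symm)
        rw [if_pos har, if_neg hbr]
        exact (hg0 b).symm
      · by_cases hbr : b = r
        · rw [if_neg har, if_pos hbr]
          exact hg0 a
        · rw [if_neg har, if_neg hbr]
          exact hg1 a ⟨ha, har⟩ b ⟨hb, hbr⟩ hab
    · intro a ha
      change (if a = r then 0 else g a) = κ a
      by_cases har : a = r
      · rw [if_pos har, har]
        exact (h2 (har ▸ ha.1)).symm
      · rw [if_neg har]
        exact hg2 a ⟨ha, har⟩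
    · intro a ha b hb h3 h4
      change (if a = r then 0 else g a) = 0 at h3
      change (if b = r then 0 else g b) = 0 at h4
      by_cases har : a = r
      · by_cases hbr : b = r
        · rw [har, hbr]
        · rw [if_neg hbr] at h4
          exact absurd h4 (hg0 b)
      · rw [if_neg har] at h3
        exact absurd h3 (hg0 a)
  by_cases hz : ∃ r ∈ S ∩ D, κ r = 0
  · obtain ⟨r, hr, hr0⟩ := hz
    refine apex r hr.2 ?_ (fun _ => hr0) ?_
    · intro a ha har h
      exact hκ a ha.1 r hr.1 (hcl a ha r hr har) (h.trans hr0.symm)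
    · rcases hcrit with h | h
      · obtain ⟨f, hf⟩ := two_col h
        exact col_two f (fun a ha b hb hab => hf a ha.1 b hb.1 hab)
      · exact h r hr.2
  · push Not at hz
    by_cases hb : (F.induce D).Colorable 2
    · obtain ⟨f, hf⟩ := two_col hb
      obtain ⟨g, hg0, hg1, hg2⟩ := ext0 hf κ (S ∩ D) (fun w hw => hw.2) hcl hz
        (fun a ha b hb hab => hκ a ha.1 b hb.1 hab)
      exact ⟨g, hg1, hg2, fun a _ b _ h => absurd h (hg0 a)⟩
    · have hc := hcrit.resolve_left hb
      have hDS : ∃ a ∈ D, a ∉ S := by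
        by_contra hcon
        push Not at hcon
        apply hb
        apply col_two (fun w => decide (κ w = 1))
        intro a ha b hb' hab h
        simp only [decide_eq_decide] at h
        have key : ∀ x y : Fin 3, x ≠ y → x ≠ 0 → y ≠ 0 → ¬ (x = 1 ↔ y = 1) := by decide
        exact key _ _ (hκ a (hcon a ha) b (hcon b hb') hab) (hz a ⟨hcon a ha, ha⟩)
          (hz b ⟨hcon b hb', hb'⟩) h
      obtain ⟨a, haD, haS⟩ := hDS
      exact apex a haD (fun b hb' _ => hz b hb') (fun h => absurd h haS) (hc a haD)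

/-- `Built F k S`: the vertex set `S` is obtained from the empty set by successively adding sets `B`
of vertices such that `F[B]` is bipartite or becomes bipartite when any one vertex is deleted, `B`
meets the union of the earlier sets in a clique of at most `k` vertices, and all edges of `F`
between `B` and this union lie inside `B`. -/
inductive Built {W : Type} (F : SimpleGraph W) (k : ℕ) : Set W → Prop
  | empty : Built F k ∅
  | glue (S B : Set W) : Built F k S → (S ∩ B).ncard ≤ k → F.IsClique (S ∩ B) →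
      (∀ x ∈ S \ B, ∀ y ∈ B \ S, ¬ F.Adj x y) → Crit F B → Built F k (S ∪ B)

theorem built_pieces {W : Type} [Fintype W] (F : SimpleGraph W) (k : ℕ) (hk : k ≤ 2) (S : Set W)
    (h : Built F k S) : ∃ (κ : W → Fin 3) (m : ℕ) (B : ℕ → Set W),
      (∀ a ∈ S, ∀ b ∈ S, F.Adj a b → κ a ≠ κ b) ∧ (∀ i < m, B i ⊆ S) ∧
      (∀ w ∈ S, ∃ i < m, w ∈ B i) ∧
      (∀ a ∈ S, ∀ b ∈ S, F.Adj a b → ∃ i < m, a ∈ B i ∧ b ∈ B i) ∧
      (∀ i < m, ∀ a ∈ B i, ∀ b ∈ B i, κ a = 0 → κ b = 0 → a = b) ∧
      (∀ i < m, (∀ l < i, Disjoint (B i) (B l)) ∨ ∃ j < i, (∀ l < i, B i ∩ B l ⊆ B j) ∧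
        (B i ⊆ B j ∨ (B i ∩ B j).ncard ≤ k ∧
          ((∃ a, B i ∩ B j = {a}) ∨ ∃ a ∈ B i ∩ B j, ∃ b ∈ B i ∩ B j, κ a ≠ κ b))) := by
  induction h with
  | empty =>
    refine ⟨fun _ => 0, 0, fun _ => ∅, ?_, ?_, ?_, ?_, ?_, ?_⟩
    · intro a ha; exact absurd ha (Set.notMem_empty a)
    · intro i hi; omega
    · intro a ha; exact absurd ha (Set.notMem_empty a)
    · intro a ha; exact absurd ha (Set.notMem_empty a)
    · intro i hi; omega
    · intro i hi; omega
  | glue S D _ hcard hcl hno hcrit ih =>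
    obtain ⟨κ, m, B, h1, h2, h3, h4, h5, h6⟩ := ih
    have hcl' : ∀ a ∈ S ∩ D, ∀ b ∈ S ∩ D, a ≠ b → F.Adj a b := fun a ha b hb hab =>
      hcl ha hb hab
    obtain ⟨g, hg1, hg2, hg3⟩ := ext_col h1 hcl' hcrit
    set κ' : W → Fin 3 := fun w => if w ∈ S then κ w else g w with hκ'
    have hS : ∀ w ∈ S, κ' w = κ w := fun w hw => by simp only [hκ', if_pos hw]
    have hD : ∀ w ∈ D, κ' w = g w := by
      intro w hw
      by_cases hwS : w ∈ S
      · rw [hS w hwS, hg2 w ⟨hwS, hw⟩]
      · simp only [hκ', if_neg hwS]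
    set B' : ℕ → Set W := fun i => if i < m then B i else D with hB'
    have hBlt : ∀ i < m, B' i = B i := fun i hi => by simp only [hB', if_pos hi]
    have hBm : B' m = D := by simp [hB']
    have hmem : ∀ a b, a ∈ S ∪ D → b ∈ S ∪ D → F.Adj a b → (a ∈ S ∧ b ∈ S) ∨ (a ∈ D ∧ b ∈ D) := by
      intro a b ha hb hab
      by_cases haS : a ∈ S
      · by_cases hbS : b ∈ S
        · exact Or.inl ⟨haS, hbS⟩
        · have hbD : b ∈ D := hb.resolve_left hbS
          by_cases haD : a ∈ D
          · exact Or.inr ⟨haD, hbD⟩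
          · exact absurd hab (hno a ⟨haS, haD⟩ b ⟨hbD, hbS⟩)
      · have haD : a ∈ D := ha.resolve_left haS
        by_cases hbD : b ∈ D
        · exact Or.inr ⟨haD, hbD⟩
        · have hbS : b ∈ S := hb.resolve_right hbD
          exact absurd hab.symm (hno b ⟨hbS, hbD⟩ a ⟨haD, haS⟩)
    refine ⟨κ', m + 1, B', ?_, ?_, ?_, ?_, ?_, ?_⟩
    · intro a ha b hb hab
      rcases hmem a b ha hb hab with ⟨ha', hb'⟩ | ⟨ha', hb'⟩
      · rw [hS a ha', hS b hb']; exact h1 a ha' b hb' hab
      · rw [hD a ha', hD b hb']; exact hg1 a ha' b hb' hab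
    · intro i hi
      by_cases him : i < m
      · rw [hBlt i him]; exact (h2 i him).trans Set.subset_union_left
      · have : i = m := by omega
        subst this
        rw [hBm]; exact Set.subset_union_right
    · rintro w (hw | hw)
      · obtain ⟨i, hi, hwi⟩ := h3 w hw
        exact ⟨i, by omega, by rw [hBlt i hi]; exact hwi⟩
      · exact ⟨m, by omega, by rw [hBm]; exact hw⟩
    · intro a ha b hb hab
      rcases hmem a b ha hb hab with ⟨ha', hb'⟩ | ⟨ha', hb'⟩
      · obtain ⟨i, hi, hi1, hi2⟩ := h4 a ha' b hb' hab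
        exact ⟨i, by omega, by rw [hBlt i hi]; exact ⟨hi1, hi2⟩⟩
      · exact ⟨m, by omega, by rw [hBm]; exact ⟨ha', hb'⟩⟩
    · intro i hi a ha b hb ha0 hb0
      by_cases him : i < m
      · rw [hBlt i him] at ha hb
        rw [hS a (h2 i him ha)] at ha0
        rw [hS b (h2 i him hb)] at hb0
        exact h5 i him a ha b hb ha0 hb0
      · have : i = m := by omega
        subst this
        rw [hBm] at ha hb
        rw [hD a ha] at ha0
        rw [hD b hb] at hb0
        exact hg3 a ha b hb ha0 hb0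
    · intro i hi
      by_cases him : i < m
      · rw [hBlt i him]
        rcases h6 i him with h | ⟨j, hj, hj1, hj2⟩
        · left
          intro l hl
          rw [hBlt l (by omega)]
          exact h l hl
        · right
          refine ⟨j, hj, ?_, ?_⟩
          · intro l hl
            rw [hBlt l (by omega), hBlt j (by omega)]
            exact hj1 l hl
          · rw [hBlt j (by omega)]
            rcases hj2 with h | ⟨hn, h | ⟨a, ha, b, hb, hab⟩⟩
            · exact Or.inl h
            · exact Or.inr ⟨hn, Or.inl h⟩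
            · refine Or.inr ⟨hn, Or.inr ⟨a, ha, b, hb, ?_⟩⟩
              rw [hS a (h2 i him ha.1), hS b (h2 i him hb.1)]
              exact hab
      · have : i = m := by omega
        subst this
        rw [hBm]
        by_cases hne : (S ∩ D).Nonempty
        · right
          -- a piece containing `S ∩ D`
          obtain ⟨j, hj, hsub, hsing⟩ : ∃ j < i, S ∩ D ⊆ B j ∧
              ((∃ a, S ∩ D = {a}) ∨ ∃ a ∈ S ∩ D, ∃ b ∈ S ∩ D, F.Adj a b) := by
            obtain ⟨u, hu⟩ := hne
            by_cases hall : ∀ v ∈ S ∩ D, v = u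
            · obtain ⟨j, hj, huj⟩ := h3 u hu.1
              refine ⟨j, hj, ?_, Or.inl ⟨u, ?_⟩⟩
              · intro v hv; rw [hall v hv]; exact huj
              · ext v
                constructor
                · intro hv; exact hall v hv
                · intro hv
                  have : v = u := hv
                  rw [this]; exact hu
            · push Not at hall
              obtain ⟨v, hv, hvu⟩ := hall
              have hadj := hcl' v hv u hu hvu
              obtain ⟨j, hj, hvj, huj⟩ := h4 v hv.1 u hu.1 hadj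
              refine ⟨j, hj, ?_, Or.inr ⟨v, hv, u, hu, hadj⟩⟩
              intro w hw
              have hpair : ({v, u} : Set W) = S ∩ D := by
                apply Set.eq_of_subset_of_ncard_le _ _ (Set.toFinite _)
                · intro z hz
                  rcases hz with rfl | hz
                  · exact hv
                  · have : z = u := hz
                    rw [this]; exact hu
                · rw [Set.ncard_pair hvu]; omega
              rw [← hpair] at hw
              rcases hw with rfl | hw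
              · exact hvj
              · have : w = u := hw
                rw [this]; exact huj
          have hint : D ∩ B j = S ∩ D := by
            ext w
            constructor
            · intro hw
              exact ⟨h2 j hj hw.2, hw.1⟩
            · intro hw
              exact ⟨hw.2, hsub hw⟩
          refine ⟨j, hj, ?_, ?_⟩
          · intro l hl
            rw [hBlt l hl, hBlt j hj]
            intro w hw
            exact hsub ⟨h2 l hl hw.2, hw.1⟩
          · rw [hBlt j hj, hint]
            refine Or.inr ⟨hcard, ?_⟩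
            rcases hsing with h | ⟨a, ha, b, hb, hab⟩
            · exact Or.inl h
            · refine Or.inr ⟨a, ha, b, hb, ?_⟩
              rw [hS a ha.1, hS b hb.1]
              exact h1 a ha.1 b hb.1 hab
        · left
          intro l hl
          rw [hBlt l hl, Set.disjoint_left]
          intro w hw hwl
          exact hne ⟨w, h2 l hl hwl, hw⟩

theorem built_bound {W : Type} [Fintype W] (F : SimpleGraph W) (k : ℕ) (hk1 : 1 ≤ k) (hk : k ≤ 2)
    (h : Built F k Set.univ) : c F ≤ k := by
  obtain ⟨κ, m, B, h1, h2, h3, h4, h5, h6⟩ := built_pieces F k hk _ h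
  exact compat F κ k hk1 (fun a b => h1 a (Set.mem_univ _) b (Set.mem_univ _)) m B
    (fun w => h3 w (Set.mem_univ _))
    (fun a b => h4 a (Set.mem_univ _) b (Set.mem_univ _)) h5 h6

end Pool.Agent.X73.CF
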